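import Pool.Agent.Helper18.NF.StA

/-!
# Project NF, module NF-18: derivatives of `L'/L` near `1` for small conductors

Adapted by helper46 from helper79's module BV-7.
-/

set_option autoImplicit false

open Finset
open Pool.Agent.Helper18.NF Pool.Agent.Helper18.BV

namespace Pool.Agent.Helper46.NF

lemma ne_one_of_prim {q : ℕ} [NeZero q] (hq : 1 < q) {χ : DirichletCharacter ℂ q}
    (h : χ.IsPrimitive) : χ ≠ 1 := by
  rintro rfl
  have h1 : (1 : DirichletCharacter ℂ q).conductor = q := h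
  rw [DirichletCharacter.conductor_one] at h1
  omega

/-- Module NF-18. -/
theorem nearF (h1 : Cont) (h2 : LUpperF) (h3 : LComplexF) (h4 : SiegelF) : NearF := by
  intro n r L κ hsys B k hB
  have hε : 0 < 1 / (8 * B) := by positivity
  obtain ⟨ρ, C₁, hr0, hρn, hC₁, hup⟩ := h2 n r L κ hsys _ hε
  obtain ⟨c₁, hc₁, hlow₁⟩ := h3 n r L κ hsys _ hε
  obtain ⟨c₂, hc₂, hlow₂⟩ := h4 n r L κ hsys _ hε
  obtain ⟨C₀, hC₀, hcont⟩ := h1 n r L κ hsys
  have hn0 : (0 : ℝ) < n := by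
    have := hsys.pos
    exact_mod_cast this
  set c : ℝ := min c₁ c₂ with hc
  have hc0 : 0 < c := lt_min hc₁ hc₂
  set L0 : ℝ := max 1 (max ((2 / ρ) ^ 2) ((4 * C₁ / c) ^ 4)) with hL0
  refine ⟨k.factorial * (2 * C₁ / c), max 3 (Real.exp L0), by positivity, le_max_left _ _, ?_⟩
  intro x hx q _ hq1 hq χ hχ s hs
  rw [mem_prim] at hχ
  have hχ1 := ne_one_of_prim hq1 hχ
  set l : ℝ := Real.log x with hl
  have hxpos : 0 < x := by
    have := (le_max_left (3 : ℝ) (Real.exp L0)).trans hx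
    linarith
  have hlL0 : L0 ≤ l := by
    rw [hl, Real.le_log_iff_exp_le hxpos]
    exact (le_max_right _ _).trans hx
  have hl1 : 1 ≤ l := (le_max_left _ _).trans hlL0
  have hlpos : 0 < l := by linarith
  have hl2 : (2 / ρ) ^ 2 ≤ l := ((le_max_left _ _).trans (le_max_right _ _)).trans hlL0
  have hl3 : (4 * C₁ / c) ^ 4 ≤ l := ((le_max_right _ _).trans (le_max_right _ _)).trans hlL0
  have hqpos : (0 : ℝ) < q := by
    have : (1 : ℝ) < q := by exact_mod_cast hq1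
    linarith
  -- powers of q
  have hqe : (q : ℝ) ^ (1 / (8 * B)) ≤ l ^ (1 / 8 : ℝ) := by
    calc (q : ℝ) ^ (1 / (8 * B)) ≤ (l ^ B) ^ (1 / (8 * B)) :=
          Real.rpow_le_rpow hqpos.le hq hε.le
      _ = l ^ (1 / 8 : ℝ) := by
          rw [← Real.rpow_mul hlpos.le]
          congr 1
          field_simp
  have hqe' : l ^ (-(1 / 8) : ℝ) ≤ (q : ℝ) ^ (-(1 / (8 * B))) := by
    rw [Real.rpow_neg hlpos.le, Real.rpow_neg hqpos.le]
    exact inv_anti₀ (Real.rpow_pos_of_pos hqpos _) hqe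
  -- lower bound at 1
  have hL1 : c * l ^ (-(1 / 8) : ℝ) ≤ ‖LF (tw r χ) 1‖ := by
    have hpos : 0 ≤ (q : ℝ) ^ (-(1 / (8 * B))) := (Real.rpow_pos_of_pos hqpos _).le
    have hpos' : 0 ≤ l ^ (-(1 / 8) : ℝ) := (Real.rpow_pos_of_pos hlpos _).le
    by_cases hsq : χ ^ 2 = 1
    · calc c * l ^ (-(1 / 8) : ℝ) ≤ c₂ * (q : ℝ) ^ (-(1 / (8 * B))) :=
            mul_le_mul (min_le_right _ _) hqe' hpos' hc₂.le
        _ ≤ _ := hlow₂ q χ hχ hχ1 hsq
    · calc c * l ^ (-(1 / 8) : ℝ) ≤ c₁ * (q : ℝ) ^ (-(1 / (8 * B))) :=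
            mul_le_mul (min_le_left _ _) hqe' hpos' hc₁.le
        _ ≤ _ := hlow₁ q χ hsq
  -- radius
  set δ : ℝ := l ^ (-(1 / 2) : ℝ) with hδ
  have hδ0 : 0 < δ := Real.rpow_pos_of_pos hlpos _
  have hδr : 2 * δ ≤ ρ := by
    have h4 : 2 / ρ ≤ l ^ (1 / 2 : ℝ) := by
      have h5 : ((2 / ρ) ^ 2) ^ (1 / 2 : ℝ) ≤ l ^ (1 / 2 : ℝ) :=
        Real.rpow_le_rpow (by positivity) hl2 (by norm_num)
      rwa [← Real.rpow_natCast, ← Real.rpow_mul (by positivity), show ((2 : ℕ) : ℝ) * (1 / 2) = 1 by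
        norm_num, Real.rpow_one] at h5
    have h6 : δ * l ^ (1 / 2 : ℝ) = 1 := by
      rw [hδ, ← Real.rpow_add hlpos]
      norm_num
    rw [div_le_iff₀ hr0] at h4
    nlinarith
  -- the balls
  have hz1 : ∀ z : ℂ, ‖z - s‖ ≤ δ → ‖z - 1‖ ≤ 2 * δ := by
    intro z hz
    calc ‖z - 1‖ = ‖(z - s) + (s - 1)‖ := by ring_nf
      _ ≤ ‖z - s‖ + ‖s - 1‖ := norm_add_le _ _
      _ ≤ 2 * δ := by linarith
  have hopen : IsOpen {w : ℂ | 1 - 1 / (n : ℝ) < w.re} :=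
    isOpen_lt continuous_const Complex.continuous_re
  have hdom : ∀ w : ℂ, ‖w - 1‖ ≤ ρ → w ∈ {w : ℂ | 1 - 1 / (n : ℝ) < w.re} := by
    intro w hw
    have h5 : |(w - 1).re| ≤ ρ := (Complex.abs_re_le_norm _).trans hw
    rw [Complex.sub_re, Complex.one_re] at h5
    have h6 := (abs_le.1 h5).1
    have h7 : 1 / (4 * (n : ℝ)) < 1 / n := by
      apply one_div_lt_one_div_of_lt hn0
      linarith
    simp only [Set.mem_setOf_eq]
    linarith
  have hdon : DifferentiableOn ℂ (LF (tw r χ)) {w : ℂ | 1 - 1 / (n : ℝ) < w.re} :=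
    (hcont q χ hχ1).1
  have hdiff : ∀ w : ℂ, ‖w - 1‖ ≤ ρ → DifferentiableAt ℂ (LF (tw r χ)) w := fun w hw =>
    (hdon w (hdom w hw)).differentiableAt (hopen.mem_nhds (hdom w hw))
  have hlowz : ∀ z : ℂ, ‖z - s‖ ≤ δ →
      c / 2 * l ^ (-(1 / 8) : ℝ) ≤ ‖LF (tw r χ) z‖ := by
    intro z hz
    have h7 : ‖LF (tw r χ) z - LF (tw r χ) 1‖ ≤
        C₁ * l ^ (1 / 8 : ℝ) * ‖z - 1‖ := by
      apply Convex.norm_image_sub_le_of_norm_deriv_le (𝕜 := ℂ) (s := Metric.closedBall (1 : ℂ) ρ)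
      · intro w hw
        rw [mem_closedBall_iff_norm] at hw
        exact hdiff w hw
      · intro w hw
        rw [mem_closedBall_iff_norm] at hw
        exact (hup q χ hχ1 w hw).2.trans (mul_le_mul_of_nonneg_left hqe hC₁.le)
      · exact convex_closedBall _ _
      · exact Metric.mem_closedBall_self hr0.le
      · rw [mem_closedBall_iff_norm]
        exact (hz1 z hz).trans hδr
    have h8 : C₁ * l ^ (1 / 8 : ℝ) * ‖z - 1‖ ≤ c / 2 * l ^ (-(1 / 8) : ℝ) := by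
      have h9 : C₁ * l ^ (1 / 8 : ℝ) * ‖z - 1‖ ≤ C₁ * l ^ (1 / 8 : ℝ) * (2 * δ) :=
        mul_le_mul_of_nonneg_left (hz1 z hz) (by positivity)
      have h10 : l ^ (1 / 8 : ℝ) * δ = l ^ (-(1 / 8) : ℝ) * l ^ (-(1 / 4) : ℝ) := by
        rw [hδ, ← Real.rpow_add hlpos, ← Real.rpow_add hlpos]
        norm_num
      have h11 : 4 * C₁ / c ≤ l ^ (1 / 4 : ℝ) := by
        have h5 : ((4 * C₁ / c) ^ 4) ^ (1 / 4 : ℝ) ≤ l ^ (1 / 4 : ℝ) :=
          Real.rpow_le_rpow (by positivity) hl3 (by norm_num)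
        rwa [← Real.rpow_natCast, ← Real.rpow_mul (by positivity),
          show ((4 : ℕ) : ℝ) * (1 / 4) = 1 by norm_num, Real.rpow_one] at h5
      have h12 : l ^ (1 / 4 : ℝ) * l ^ (-(1 / 4) : ℝ) = 1 := by
        rw [← Real.rpow_add hlpos]
        norm_num
      have h13 : 0 < l ^ (-(1 / 4) : ℝ) := Real.rpow_pos_of_pos hlpos _
      have h14 : 4 * C₁ * l ^ (-(1 / 4) : ℝ) ≤ c := by
        rw [div_le_iff₀ hc0] at h11
        nlinarith
      have h15 : 0 < l ^ (-(1 / 8) : ℝ) := Real.rpow_pos_of_pos hlpos _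
      calc C₁ * l ^ (1 / 8 : ℝ) * ‖z - 1‖ ≤ C₁ * l ^ (1 / 8 : ℝ) * (2 * δ) := h9
        _ = 2 * C₁ * (l ^ (1 / 8 : ℝ) * δ) := by ring
        _ = (4 * C₁ * l ^ (-(1 / 4) : ℝ)) / 2 * l ^ (-(1 / 8) : ℝ) := by
            rw [h10]
            ring
        _ ≤ c / 2 * l ^ (-(1 / 8) : ℝ) := by gcongr
    have h16 : ‖LF (tw r χ) 1‖ ≤ ‖LF (tw r χ) z‖ +
        ‖LF (tw r χ) z - LF (tw r χ) 1‖ := by
      have := norm_sub_le (LF (tw r χ) z)
        (LF (tw r χ) z - LF (tw r χ) 1)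
      simpa using this
    have h17 : c * l ^ (-(1 / 8) : ℝ) = 2 * (c / 2 * l ^ (-(1 / 8) : ℝ)) := by ring
    linarith
  have hl8 : 0 < l ^ (-(1 / 8) : ℝ) := Real.rpow_pos_of_pos hlpos _
  have hne : ∀ z : ℂ, ‖z - s‖ ≤ δ → LF (tw r χ) z ≠ 0 := by
    intro z hz h0
    have h18 := hlowz z hz
    rw [h0, norm_zero] at h18
    have : 0 < c / 2 * l ^ (-(1 / 8) : ℝ) := by positivity
    linarith
  have hbound : ∀ z ∈ Metric.sphere s δ, ‖deriv (LF (tw r χ)) z /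
      LF (tw r χ) z‖ ≤ 2 * C₁ / c * l ^ (1 / 4 : ℝ) := by
    intro z hz
    rw [mem_sphere_iff_norm] at hz
    rw [norm_div]
    have h19 := (hup q χ hχ1 z ((hz1 z hz.le).trans hδr)).2.trans
      (mul_le_mul_of_nonneg_left hqe hC₁.le)
    have h20 := hlowz z hz.le
    have h21 : 0 < c / 2 * l ^ (-(1 / 8) : ℝ) := by positivity
    calc ‖deriv (LF (tw r χ)) z‖ / ‖LF (tw r χ) z‖
        ≤ (C₁ * l ^ (1 / 8 : ℝ)) / (c / 2 * l ^ (-(1 / 8) : ℝ)) :=
          div_le_div₀ (by positivity) h19 h21 h20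
      _ = 2 * C₁ / c * l ^ (1 / 4 : ℝ) := by
          rw [Real.rpow_neg hlpos.le]
          have h22 : l ^ (1 / 4 : ℝ) = l ^ (1 / 8 : ℝ) * l ^ (1 / 8 : ℝ) := by
            rw [← Real.rpow_add hlpos]
            norm_num
          rw [h22]
          have h23 : 0 < l ^ (1 / 8 : ℝ) := Real.rpow_pos_of_pos hlpos _
          field_simp
  have hdc : DiffContOnCl ℂ (fun z => deriv (LF (tw r χ)) z /
      LF (tw r χ) z) (Metric.ball s δ) := by
    apply DifferentiableOn.diffContOnCl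
    intro z hz
    have hz' : ‖z - s‖ ≤ δ := by
      have := Metric.closure_ball_subset_closedBall hz
      rwa [mem_closedBall_iff_norm] at this
    have hz2 : ‖z - 1‖ ≤ ρ := (hz1 z hz').trans hδr
    have hd2 : DifferentiableAt ℂ (deriv (LF (tw r χ))) z :=
      ((hdon.deriv hopen) z (hdom z hz2)).differentiableAt (hopen.mem_nhds (hdom z hz2))
    exact (hd2.div (hdiff z hz2) (hne z hz')).differentiableWithinAt
  have hfin := Complex.norm_iteratedDeriv_le_of_forall_mem_sphere_norm_le k hδ0 hdc hbound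
  refine hfin.trans ?_
  have h24 : l ^ (1 / 4 : ℝ) / δ ^ k ≤ l ^ (((k : ℝ) + 1) / 2) := by
    rw [hδ, ← Real.rpow_natCast, ← Real.rpow_mul hlpos.le, ← Real.rpow_sub hlpos]
    apply Real.rpow_le_rpow_of_exponent_le hl1
    linarith
  calc (k.factorial : ℝ) * (2 * C₁ / c * l ^ (1 / 4 : ℝ)) / δ ^ k
      = k.factorial * (2 * C₁ / c) * (l ^ (1 / 4 : ℝ) / δ ^ k) := by ring
    _ ≤ k.factorial * (2 * C₁ / c) * l ^ (((k : ℝ) + 1) / 2) := by gcongr

end Pool.Agent.Helper46.NF
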