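import Pool.Agent.Helper96.BV.TypeTwo
import Pool.Agent.Helper18.NF.StA

/-!
# Project NF, module NF-22: Type II sums on average, L2 version

Adapted by helper46 from helper96's module BV-12.
-/

set_option autoImplicit false

open Finset
open Pool.Agent.Helper18.NF Pool.Agent.Helper18.BV
open Pool.Agent.Helper96.BV

namespace Pool.Agent.Helper46.NF

theorem sq_FF_le' (h1 : TLS) {Q U N : ℕ} (hQ : 1 ≤ Q) (hU : Q ^ 4 ≤ U) (hN : U ≤ N)
    (a : ℕ → ℂ) (l : ℝ) (A2 : ℝ) (ha : ∑ n ∈ Icc 1 N, ‖a n‖ ^ 2 / n ≤ A2) (t : ℝ) :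
    ∑ x ∈ (Icc 1 Q).sigma (fun q => prim q), ‖FF a l U N x t‖ ^ 2 ≤
      (Real.log N + 2) * A2 := by
  have h2 := h1 Q U N hQ hU hN (fun m => a m * uu l m t)
  rw [Finset.sum_sigma]
  refine h2.trans ?_
  have hl : 0 ≤ Real.log N := Real.log_natCast_nonneg N
  apply mul_le_mul_of_nonneg_left _ (by linarith)
  have h3 : ∑ m ∈ Ioc U N, ‖a m * uu l m t‖ ^ 2 / m = ∑ m ∈ Ioc U N, ‖a m‖ ^ 2 / m := by
    refine Finset.sum_congr rfl (fun m _ => ?_)
    rw [norm_mul, norm_uu, mul_one]
  rw [h3]
  refine le_trans (Finset.sum_le_sum_of_subset_of_nonneg ?_ ?_) ha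
  · intro m hm
    rw [Finset.mem_Ioc] at hm
    exact Finset.mem_Icc.2 ⟨by omega, hm.2⟩
  · intro m _ _
    positivity

/-- Module NF-22. -/
theorem typeTwoF (h1 : TLS) (h2 : FourierRep) : TypeTwoF := by
  classical
  intro g hg
  have hcs : HasCompactSupport g :=
    IsCompact.of_isClosed_subset isCompact_Icc (isClosed_tsupport _)
      (hg.supp.trans Set.Ioo_subset_Icc_self)
  obtain ⟨h, hc, hint, hrep⟩ := h2 g hg.smooth hcs
  have hint0 : MeasureTheory.Integrable (fun t : ℝ => ‖h t‖) := by
    have := hint 0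
    simpa using this
  have hinth : MeasureTheory.Integrable h := by
    rwa [MeasureTheory.integrable_norm_iff hc.aestronglyMeasurable] at hint0
  set H : ℝ := ∫ t, ‖h t‖ with hH
  have hH0 : 0 ≤ H := MeasureTheory.integral_nonneg (fun t => norm_nonneg _)
  refine ⟨3 * H + 1, by positivity, ?_⟩
  intro x hx Q U V hQ hU hV a b ha hb A2 B2 hA2 hB2
  set N := ⌊x⌋₊ with hN
  set l := Real.log x with hl
  have hl1 : 1 ≤ l := by
    rw [hl, Real.le_log_iff_exp_le (by linarith)]
    have := Real.exp_one_lt_d9
    linarith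
  have hN3 : 3 ≤ N := Nat.le_floor (by simpa using hx)
  have hNx : (N : ℝ) ≤ x := Nat.floor_le (by linarith)
  have hlN : Real.log N ≤ l := Real.log_le_log (by
    have : 0 < N := by omega
    exact_mod_cast this) hNx
  have hlN0 : 0 ≤ Real.log N := Real.log_natCast_nonneg N
  -- the double sum
  have hSS : ∀ (q : ℕ) (χ : DirichletCharacter ℂ q), SS (a * b : ArithmeticFunction ℂ) g x χ =
      ∑ d ∈ Ioc U N, ∑ e ∈ Ioc V N, a d * b e *
        (χ (d : ZMod q) * χ (e : ZMod q)) * (wt g x (d * e) : ℂ) := by
    intro q χ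
    rw [SS_mul hg hx]
    symm
    have hsub : ∀ W : ℕ, Ioc W N ⊆ Icc 1 N := by
      intro W m hm
      rw [Finset.mem_Ioc] at hm
      exact Finset.mem_Icc.2 ⟨by omega, hm.2⟩
    have h3 : ∀ d, ∑ e ∈ Ioc V N, a d * b e *
        (χ (d : ZMod q) * χ (e : ZMod q)) * (wt g x (d * e) : ℂ) =
        ∑ e ∈ Icc 1 N, a d * b e *
        (χ (d : ZMod q) * χ (e : ZMod q)) * (wt g x (d * e) : ℂ) := by
      intro d
      refine Finset.sum_subset (hsub V) (fun e he he' => ?_)
      rw [Finset.mem_Icc] at he
      rw [Finset.mem_Ioc, not_and_or] at he'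
      rw [hb e (by omega)]
      simp
    rw [Finset.sum_congr rfl (fun d _ => h3 d)]
    refine Finset.sum_subset (hsub U) (fun d hd hd' => ?_)
    rw [Finset.mem_Icc] at hd
    rw [Finset.mem_Ioc, not_and_or] at hd'
    refine Finset.sum_eq_zero (fun e _ => ?_)
    rw [ha d (by omega)]
    simp
  by_cases hUV : U ≤ N ∧ V ≤ N
  · obtain ⟨hUN, hVN⟩ := hUV
    -- integral representation
    have hI : ∀ y : (Σ q : ℕ, DirichletCharacter ℂ q), SS (a * b : ArithmeticFunction ℂ) g x y.2 =
        ∫ t, h t * (FF a l U N y t * FF b l V N y t) := by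
      intro y
      rw [hSS]
      have h3 : ∀ d ∈ Ioc U N, ∀ e ∈ Ioc V N, a d * b e *
          (y.2 (d : ZMod y.1) * y.2 (e : ZMod y.1)) * (wt g x (d * e) : ℂ) =
          ∫ t, h t * ((a d * uu l d t) * y.2 (d : ZMod y.1) / d *
            ((b e * uu l e t) * y.2 (e : ZMod y.1) / e)) := by
        intro d hd e he
        rw [Finset.mem_Ioc] at hd he
        have hd0 : (d : ℝ) ≠ 0 := by
          have : 0 < d := by omega
          exact_mod_cast this.ne'
        have he0 : (e : ℝ) ≠ 0 := by
          have : 0 < e := by omega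
          exact_mod_cast this.ne'
        have h4 : (wt g x (d * e) : ℂ) = (∫ t : ℝ, h t * (uu l d t * uu l e t)) / (d * e) := by
          unfold wt
          push_cast
          rw [hrep]
          congr 1
          refine MeasureTheory.integral_congr_ae (Filter.Eventually.of_forall (fun t => ?_))
          simp only
          congr 1
          unfold uu
          rw [← Complex.exp_add]
          congr 1
          push_cast
          rw [Real.log_mul hd0 he0]
          push_cast
          ring
        rw [h4]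
        rw [mul_div_assoc', ← MeasureTheory.integral_const_mul, ← MeasureTheory.integral_div]
        refine MeasureTheory.integral_congr_ae (Filter.Eventually.of_forall (fun t => ?_))
        simp only
        ring
      have hint2 : ∀ d e : ℕ, MeasureTheory.Integrable (fun t => h t *
          ((a d * uu l d t) * y.2 (d : ZMod y.1) / d *
            ((b e * uu l e t) * y.2 (e : ZMod y.1) / e))) := by
        intro d e
        have h5 : MeasureTheory.Integrable (fun t => (a d * y.2 (d : ZMod y.1) / d *
            (b e * y.2 (e : ZMod y.1) / e)) * (h t * (uu l d t * uu l e t))) := by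
          apply MeasureTheory.Integrable.const_mul
          refine MeasureTheory.Integrable.mono hinth ?_ ?_
          · have := continuous_uu l d
            have := continuous_uu l e
            exact (by fun_prop : Continuous (fun t => h t * (uu l d t * uu l e t))).aestronglyMeasurable
          · refine Filter.Eventually.of_forall (fun t => ?_)
            rw [norm_mul, norm_mul, norm_uu, norm_uu]
            simp
        refine h5.congr (Filter.Eventually.of_forall (fun t => ?_))
        simp only
        ring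
      rw [Finset.sum_congr rfl (fun d hd => Finset.sum_congr rfl (fun e he => h3 d hd e he))]
      rw [Finset.sum_congr rfl (fun d _ =>
        (MeasureTheory.integral_finsetSum (Ioc V N) (fun e _ => hint2 d e)).symm)]
      rw [← MeasureTheory.integral_finsetSum]
      · refine MeasureTheory.integral_congr_ae (Filter.Eventually.of_forall (fun t => ?_))
        simp only
        unfold FF
        rw [Finset.sum_mul_sum, Finset.mul_sum]
        refine Finset.sum_congr rfl (fun d _ => ?_)
        rw [Finset.mul_sum]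
      · intro d _
        exact MeasureTheory.integrable_finsetSum _ (fun e _ => hint2 d e)
    -- the main estimate
    set X : Finset (Σ q : ℕ, DirichletCharacter ℂ q) := (Icc 1 Q).sigma (fun q => prim q) with hX
    have hA0 : 0 ≤ A2 := le_trans (Finset.sum_nonneg (fun _ _ => by positivity)) hA2
    have hB0 : 0 ≤ B2 := le_trans (Finset.sum_nonneg (fun _ _ => by positivity)) hB2
    have hF2 : ∀ t, ∑ y ∈ X, ‖FF a l U N y t‖ ^ 2 ≤ (l + 2) * A2 := by
      intro t
      refine (sq_FF_le' h1 hQ hU hUN a l A2 hA2 t).trans ?_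
      exact mul_le_mul_of_nonneg_right (by linarith) hA0
    have hG2 : ∀ t, ∑ y ∈ X, ‖FF b l V N y t‖ ^ 2 ≤ (l + 2) * B2 := by
      intro t
      refine (sq_FF_le' h1 hQ hV hVN b l B2 hB2 t).trans ?_
      exact mul_le_mul_of_nonneg_right (by linarith) hB0
    have hFG : ∀ t, ∑ y ∈ X, ‖FF a l U N y t‖ * ‖FF b l V N y t‖ ≤
        3 * l * Real.sqrt (A2 * B2) := by
      intro t
      have h6 := Finset.sum_mul_sq_le_sq_mul_sq X (fun y => ‖FF a l U N y t‖)
        (fun y => ‖FF b l V N y t‖)
      have hsq : Real.sqrt (A2 * B2) ^ 2 = A2 * B2 := Real.sq_sqrt (mul_nonneg hA0 hB0)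
      have h7 : (∑ y ∈ X, ‖FF a l U N y t‖ * ‖FF b l V N y t‖) ^ 2 ≤
          ((l + 2) * Real.sqrt (A2 * B2)) ^ 2 := by
        calc _ ≤ _ := h6
          _ ≤ ((l + 2) * A2) * ((l + 2) * B2) :=
              mul_le_mul (hF2 t) (hG2 t) (Finset.sum_nonneg (fun _ _ => by positivity))
                (by positivity)
          _ = (l + 2) ^ 2 * (A2 * B2) := by ring
          _ = _ := by rw [mul_pow, hsq]
      have h8 := abs_le_of_sq_le_sq h7 (by positivity)
      refine (le_abs_self _).trans (h8.trans ?_)
      exact mul_le_mul_of_nonneg_right (by linarith) (Real.sqrt_nonneg _)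
    have hintF : ∀ y, MeasureTheory.Integrable
        (fun t => ‖h t‖ * (‖FF a l U N y t‖ * ‖FF b l V N y t‖)) := by
      intro y
      refine MeasureTheory.Integrable.mono' (hint0.mul_const
        ((∑ m ∈ Ioc U N, ‖a m‖ / m) * (∑ m ∈ Ioc V N, ‖b m‖ / m))) ?_ ?_
      · have := continuous_FF a l U N y
        have := continuous_FF b l V N y
        exact (by fun_prop : Continuous (fun t => ‖h t‖ *
          (‖FF a l U N y t‖ * ‖FF b l V N y t‖))).aestronglyMeasurable
      · refine Filter.Eventually.of_forall (fun t => ?_)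
        rw [Real.norm_of_nonneg (by positivity)]
        apply mul_le_mul_of_nonneg_left _ (norm_nonneg _)
        exact mul_le_mul (norm_FF_le _ _ _ _ _ _) (norm_FF_le _ _ _ _ _ _) (norm_nonneg _)
          (Finset.sum_nonneg (fun _ _ => by positivity))
    have hS : ∑ q ∈ Icc 1 Q, ∑ χ ∈ prim q, ‖SS (a * b : ArithmeticFunction ℂ) g x χ‖ =
        ∑ y ∈ X, ‖SS (a * b : ArithmeticFunction ℂ) g x y.2‖ := by
      rw [hX, Finset.sum_sigma]
    rw [hS]
    calc ∑ y ∈ X, ‖SS (a * b : ArithmeticFunction ℂ) g x y.2‖
        ≤ ∑ y ∈ X, ∫ t, ‖h t‖ * (‖FF a l U N y t‖ * ‖FF b l V N y t‖) := by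
          refine Finset.sum_le_sum (fun y _ => ?_)
          rw [hI y]
          refine (MeasureTheory.norm_integral_le_integral_norm _).trans (le_of_eq ?_)
          refine MeasureTheory.integral_congr_ae (Filter.Eventually.of_forall (fun t => ?_))
          simp only
          rw [norm_mul, norm_mul]
      _ = ∫ t, ∑ y ∈ X, ‖h t‖ * (‖FF a l U N y t‖ * ‖FF b l V N y t‖) :=
          (MeasureTheory.integral_finsetSum X (fun y _ => hintF y)).symm
      _ ≤ ∫ t, ‖h t‖ * (3 * l * Real.sqrt (A2 * B2)) := by
          apply MeasureTheory.integral_mono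
          · exact MeasureTheory.integrable_finsetSum _ (fun y _ => hintF y)
          · exact hint0.mul_const _
          · intro t
            simp only
            rw [← Finset.mul_sum]
            exact mul_le_mul_of_nonneg_left (hFG t) (norm_nonneg _)
      _ = H * (3 * l * Real.sqrt (A2 * B2)) := by rw [MeasureTheory.integral_mul_const]
      _ ≤ (3 * H + 1) * l * Real.sqrt (A2 * B2) := by
          have h9 : 0 ≤ l * Real.sqrt (A2 * B2) :=
            mul_nonneg (by linarith) (Real.sqrt_nonneg _)
          nlinarith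
  · have hz : ∀ (q : ℕ) (χ : DirichletCharacter ℂ q),
        SS (a * b : ArithmeticFunction ℂ) g x χ = 0 := by
      intro q χ
      rw [hSS]
      rw [not_and_or] at hUV
      rcases hUV with h3 | h3
      · rw [Finset.Ioc_eq_empty (by omega), Finset.sum_empty]
      · refine Finset.sum_eq_zero (fun d _ => ?_)
        rw [Finset.Ioc_eq_empty (by omega), Finset.sum_empty]
    have : ∑ q ∈ Icc 1 Q, ∑ χ ∈ prim q, ‖SS (a * b : ArithmeticFunction ℂ) g x χ‖ = 0 := by
      refine Finset.sum_eq_zero (fun q _ => Finset.sum_eq_zero (fun χ _ => ?_))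
      rw [hz, norm_zero]
    rw [this]
    positivity

end Pool.Agent.Helper46.NF
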